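import Pool.Agent.SV.Base3
import Pool.Agent.SV.Rank

/-!
# Prime twists of rank zero of every elliptic curve with full rational two-torsion

Every elliptic curve over the rational numbers all of whose points of order two are rational is
isomorphic to a curve `y² = (x - e₀) (x - e₁) (x - e₂)` with distinct integers `e₀, e₁, e₂`. For every
such curve there are a sign `s` and a nonempty union of residue classes modulo
`M = 8 |(e₀ - e₁) (e₀ - e₂) (e₁ - e₂)|` such that for every prime `p` in these classes the quadratic twist
by `s p` has two-Selmer group equal to the image of its two-torsion. So the rank is zero, and the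
two-part of the Tate-Shafarevich group is trivial (and the parity conjecture holds for this twist by
the theorem of Monsky).
-/

namespace Pool.Agent.Results.MP_577099_nt.FullTwoTorsionTwists

open Pool.Agent.SV

theorem result (e : Fin 3 → ℤ) (he : Function.Injective e) :
    ∃ s : ℤ, (s = 1 ∨ s = -1) ∧ ∃ c : ℕ,
      c.Coprime (8 * ((e 0 - e 1) * (e 0 - e 2) * (e 1 - e 2)).natAbs) ∧
      ∀ p : ℕ, p.Prime → ¬ p ∣ 8 * ((e 0 - e 1) * (e 0 - e 2) * (e 1 - e 2)).natAbs →
        IsSquare ((c * p : ℕ) : ZMod (8 * ((e 0 - e 1) * (e 0 - e 2) * (e 1 - e 2)).natAbs)) →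
        SelTriv e (s * p) ∧ Finite (curve e (s * p)).toAffine.Point := by
  obtain ⟨s, hs, c, hc, h⟩ := main3 e he
  refine ⟨s, hs, c, hc, fun p hp hpM hsq => ?_⟩
  have h1 := h p hp hpM hsq
  refine ⟨h1, finite_of_selTriv e he _ ?_ h1⟩
  have hp0 : (p : ℤ) ≠ 0 := by exact_mod_cast hp.ne_zero
  rcases hs with rfl | rfl
  · simpa using hp0
  · simpa using hp0

end Pool.Agent.Results.MP_577099_nt.FullTwoTorsionTwists
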