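import Pool.Agent.PT.MainT
import Pool.Agent.PTR.Main

/-!
# The parity conjecture for prime twists of congruent number curves

For every squarefree `n ≥ 1` the parity conjecture holds, with rank `0` and root number `+1`, for a
positive proportion of the quadratic twists of the congruent number curve
`E_n : y² = x³ - n² x` by primes; more generally simultaneously for all members of a finite set of
pairwise coprime squarefree `n` (of the same class `key n` modulo `8`).
-/

namespace Pool.Agent.Results.MP_577099_nt.PrimeTwists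

open Pool.Agent.PT

theorem result (s : Finset ℕ) (hs : ∀ n ∈ s, Squarefree n)
    (hc : ∀ n ∈ s, ∀ m ∈ s, n ≠ m → n.Coprime m) (h8 : ∀ n ∈ s, ∀ m ∈ s, key n = key m) :
    ∃ a : ℕ, a.Coprime (8 * ∏ n ∈ s, n) ∧ ∀ p : ℕ, p.Prime → ¬ p ∣ 2 * ∏ n ∈ s, n →
      IsSquare ((a * p : ℕ) : ZMod (8 * ∏ n ∈ s, n)) → ∀ n ∈ s,
        Finite (congCurve (n * p)).toAffine.Point ∧
          HasFE (congCurve (n * p)) (PT.cond (n * p)) 1 := by
  obtain ⟨a, hcop, h⟩ := main_rank s hs hc h8
  refine ⟨a, hcop, fun p hp hpT hsq n hn ↦ ?_⟩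
  obtain ⟨⟨h1, h2⟩, hfin⟩ := h p hp hpT hsq n hn
  refine ⟨hfin, Pool.Agent.PTR.root_number (n * p) ?_ ?_⟩
  · have hpn : n.Coprime p := by
      rw [Nat.coprime_comm, hp.coprime_iff_not_dvd]
      intro hd
      exact hpT ((hd.trans (Finset.dvd_prod_of_mem (fun n ↦ n) hn)).mul_left 2)
    exact (Nat.squarefree_mul hpn).2 ⟨hs n hn, hp.squarefree⟩
  · rcases Nat.mod_two_eq_zero_or_one n with h0 | h0
    · have := h2 h0
      omega
    · have := h1 h0
      omega

end Pool.Agent.Results.MP_577099_nt.PrimeTwists
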