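import Pool.Agent.QG.Main

/-!
# The parity conjecture for the quartic twists by primes of every curve `y² = x³ + D x`

Every elliptic curve over the rational numbers with `j = 1728` is `y² = x³ + D x` for a unique
integer `D` which is not divisible by the fourth power of a prime. For every such `D`: either the
root number of `y² = x³ + D p x` is `-1` for all primes `p` not dividing `2 D`, or the parity
conjecture holds, with rank `0` and root number `+1`, for all primes `p` in a residue class modulo
`16 |D|` (prime to `2 D`).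
-/

namespace Pool.Agent.Results.MP_577099_nt.QuarticTwists

open Pool.Agent.PT Pool.Agent.QT Pool.Agent.PQG

theorem result (D : ℤ) (h4 : ∀ q : ℕ, q.Prime → ¬ (q : ℤ) ^ 4 ∣ D) :
    (∀ p : ℕ, p.Prime → ¬ (p : ℤ) ∣ 2 * D → HasFE (qc (D * p)) (gcond (D * p)) (-1)) ∨
    ∃ c : ℕ, c.Coprime (2 * D).natAbs ∧ ∀ p : ℕ, p.Prime → p ≡ c [MOD 16 * D.natAbs] →
      Finite (qc (D * p)).toAffine.Point ∧ HasFE (qc (D * p)) (gcond (D * p)) 1 :=
  Pool.Agent.QG.main D h4

end Pool.Agent.Results.MP_577099_nt.QuarticTwists
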