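import Pool.Agent.R1q.Main
import Pool.Agent.SWz.Main

/-!
# Rank one and root number `-1` in every family `y² = x³ + D p q x`

Every elliptic curve over the rational numbers with `j = 1728` is `y² = x³ + D x` for a unique
integer `D` which is not divisible by the fourth power of a prime. For every such `D`: either the
root number of `y² = x³ + D p q x` is `+1` for all primes `p ≠ q` not dividing `2 D`, or there are
at least `c X^(3/2) / log² X` pairs of primes `p, q ≤ X` for which the rank is exactly one and the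
root number is `-1`.
-/

namespace Pool.Agent.Results.MP_577099_nt.RankOne

open Pool.Agent.PT Pool.Agent.QT Pool.Agent.PQG

open Classical in
theorem result (D : ℤ) (h4 : ∀ r : ℕ, r.Prime → ¬ (r : ℤ) ^ 4 ∣ D) :
    (∀ p q : ℕ, p.Prime → q.Prime → p ≠ q → ¬ (p : ℤ) ∣ 2 * D → ¬ (q : ℤ) ∣ 2 * D →
      HasFE (qc (D * p * q)) (gcond (D * p * q)) 1) ∨
    ∃ c : ℝ, ∃ X0 : ℕ, 0 < c ∧ ∀ X : ℕ, X0 ≤ X →
      c * (X : ℝ) ^ (3 / 2 : ℝ) / Real.log X ^ 2 ≤
        (((Finset.range (X + 1) ×ˢ Finset.range (X + 1)).filter (fun x : ℕ × ℕ =>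
          x.1.Prime ∧ x.2.Prime ∧ x.1 ≠ x.2 ∧ ¬ (x.1 : ℤ) ∣ 2 * D ∧ ¬ (x.2 : ℤ) ∣ 2 * D ∧
          AddGroup.FG (qc (D * x.1 * x.2)).toAffine.Point ∧
          Module.finrank ℤ (qc (D * x.1 * x.2)).toAffine.Point = 1 ∧
          HasFE (qc (D * x.1 * x.2)) (gcond (D * x.1 * x.2)) (-1))).card : ℝ) := by
  rcases Pool.Agent.R1q.main Pool.Agent.SWz.swlam D h4 with h | ⟨c, X0, hc, h⟩
  · exact Or.inl h
  · refine Or.inr ⟨c, X0, hc, fun X hX => (h X hX).trans (le_of_eq ?_)⟩
    congr 2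
    ext x
    rw [Finset.mem_filter, Finset.mem_filter]
    exact Iff.rfl

end Pool.Agent.Results.MP_577099_nt.RankOne
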